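import Pool.Agent.X261.FI.Dat

/-!
# Automorphisms
-/

set_option autoImplicit false

namespace Pool.Agent.X261.FI

variable {F : Type} [Group F] (D : Dat F)

theorem Dat.U_le_K0 (R : ℝ) : D.U R ≤ D.K0 := fun _ h => ⟨R, h⟩

theorem Dat.U_mono {R S : ℝ} (h : R ≤ S) : D.U S ≤ D.U R := fun _ hg t ht => hg t (ht.trans h)

/-- an element moving the points near `-∞` to the left, given one not in `K0` -/
theorem Dat.exists_neg {g : F} (h : g ∉ D.K0) : ∃ c : F, (c = g ∨ c = g⁻¹) ∧ ∃ m : ℕ, 0 < m ∧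
    ∃ R : ℝ, ∀ t ≤ R, D.a c t = t - m := by
  have h0 : D.chi g ≠ 0 := fun h' => h (D.chi_eq_zero.1 h')
  have key : ∀ c : F, D.chi c < 0 → ∃ m : ℕ, 0 < m ∧ ∃ R : ℝ, ∀ t ≤ R, D.a c t = t - m := by
    intro c hc
    obtain ⟨R, hR⟩ := D.chi_spec c
    refine ⟨(- D.chi c).toNat, by omega, R, fun t ht => ?_⟩
    rw [hR t ht]
    have h1 : (((- D.chi c).toNat : ℕ) : ℤ) = - D.chi c := Int.toNat_of_nonneg (by omega)
    have h2 : (((- D.chi c).toNat : ℕ) : ℝ) = - (D.chi c : ℝ) := by exact_mod_cast h1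
    rw [h2]
    ring
  rcases lt_or_gt_of_ne h0 with h1 | h1
  · exact ⟨g, Or.inl rfl, key g h1⟩
  · exact ⟨g⁻¹, Or.inr rfl, key g⁻¹ (by rw [D.chi_inv]; omega)⟩

/-- **B1** -/
theorem Dat.B1 (α : F ≃* F) (hα : ∀ g, α g ∈ D.K0 ↔ g ∈ D.K0) (R : ℝ) :
    ∃ R' : ℝ, ∀ g ∈ D.U R, α g ∈ D.U R' := by
  obtain ⟨c, hc1, hc2⟩ := D.el ⌊R⌋
  have hc : c ∉ D.K0 := by
    rw [← D.chi_eq_zero]
    have : D.chi c = -1 := D.chi_unique ⟨⌊R⌋ - 1, fun t ht => by rw [hc2 t ht]; push_cast; ring⟩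
    rw [this]
    decide
  have hc' : α c ∉ D.K0 := fun h => hc ((hα c).1 h)
  obtain ⟨c', hcc', m, hm, R', hR'⟩ := D.exists_neg hc'
  refine ⟨R', fun g hg => ?_⟩
  have h1 : g * c = c * g := by
    apply D.inj
    rw [map_mul, map_mul]
    exact comm_of_fix R hg (fun t ht => hc1 t ((Int.floor_le R).trans ht))
  have h2 : Commute (α g) (α c) := by
    show α g * α c = α c * α g
    rw [← map_mul, h1, map_mul]
  have h3 : α g * c' = c' * α g := by
    rcases hcc' with rfl | rfl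
    · exact h2
    · exact h2.inv_right
  have h4 : α g ∈ D.K0 := (hα g).2 (D.U_le_K0 R hg)
  obtain ⟨S, hS⟩ := h4
  exact D.claim1 (y := min S R') (by exact_mod_cast hm) hR' h3 (min_le_right _ _)
    (hS _ (min_le_left _ _))

/-- **B** -/
theorem Dat.chi_aut (α : F ≃* F) (hα : ∀ g, α g ∈ D.K0 ↔ g ∈ D.K0) (f : F) :
    D.chi (α f) = D.chi f := by
  set e := D.chi (α D.tr) with he
  have h1 : ∀ f, D.chi (α f) = D.chi f * e := by
    intro f
    have h2 : D.chi (f * D.tr ^ (- D.chi f)) = 0 := by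
      rw [D.chi_mul, D.chi_zpow, D.chi_tr]
      ring
    have h3 : D.chi (α (f * D.tr ^ (- D.chi f))) = 0 := by
      rw [D.chi_eq_zero] at h2 ⊢
      exact (hα _).2 h2
    rw [map_mul, D.chi_mul, map_zpow, D.chi_zpow, ← he] at h3
    linarith
  have h2 : e = 1 ∨ e = -1 := by
    have h3 := h1 (α.symm D.tr)
    rw [α.apply_symm_apply, D.chi_tr] at h3
    exact Int.isUnit_iff.1 (IsUnit.of_mul_eq_one (D.chi (α.symm D.tr)) (by rw [mul_comm]; exact h3.symm))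
  rcases h2 with h2 | h2
  · rw [h1, h2, mul_one]
  · exfalso
    obtain ⟨R1, hR1⟩ := D.chi_spec (α D.tr)
    rw [← he, h2] at hR1
    obtain ⟨R2, hR2⟩ := D.B1 α hα 0
    set R3 := min R1 R2 with hR3
    have hτ : ∀ t ≤ R3, D.a (α D.tr) t = t - 1 := by
      intro t ht
      rw [hR1 t (ht.trans (min_le_left _ _))]
      push_cast
      ring
    have key : ∀ v ∈ D.K0, v ∈ D.U R3 := by
      intro v hv
      have hv' : α.symm v ∈ D.K0 := by
        rw [← hα, α.apply_symm_apply]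
        exact hv
      obtain ⟨S, hS⟩ := hv'
      obtain ⟨n, hn⟩ := exists_nat_gt (-S)
      have h4 : D.tr ^ n * α.symm v * (D.tr ^ n)⁻¹ ∈ D.U 0 := by
        intro t ht
        rw [map_mul, map_mul, mul_ap, mul_ap, D.tr_pow_inv, hS _ (by linarith), D.tr_pow]
        ring
      have h5 := hR2 _ h4
      rw [map_mul, map_mul, α.apply_symm_apply, map_inv, map_pow] at h5
      intro t ht
      have h6 := D.iter (f := α D.tr) (m := 1) (R := R3) (by norm_num) hτ n t ht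
      have h7 : D.a (α D.tr ^ n) t ≤ R2 := by
        rw [h6]
        have : (0 : ℝ) ≤ n := Nat.cast_nonneg n
        have := min_le_right R1 R2
        linarith
      have h8 := h5 _ h7
      rw [map_mul, map_mul, mul_ap, mul_ap, map_inv, inv_ap_self] at h8
      exact (D.a (α D.tr ^ n)).injective h8
    obtain ⟨g, hg1, hg2⟩ := D.er (⌊R3⌋ - 1)
    have h9 := key g ⟨_, hg1⟩ R3 le_rfl
    rw [hg2 R3 (by push_cast; linarith [Int.floor_le R3])] at h9
    linarith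

/-- **A1** -/
theorem Dat.A1 {f g w : F} (hf : f ∈ D.K0) (hg : g ∈ D.K0) (hw : w ∈ D.K0) :
    ∃ c : F, c ≠ 1 ∧ c * f = f * c ∧ c * g = g * c ∧ c * w = w * c := by
  obtain ⟨R, hR⟩ := hf
  obtain ⟨S, hS⟩ := hg
  obtain ⟨T, hT⟩ := hw
  set M := min R (min S T) with hM
  obtain ⟨c, hc1, hc2⟩ := D.el ⌊M⌋
  have key : ∀ x : F, (∀ t ≤ M, D.a x t = t) → c * x = x * c := by
    intro x hx
    apply D.inj
    rw [map_mul, map_mul]
    exact (comm_of_fix M hx (fun t ht => hc1 t ((Int.floor_le M).trans ht))).symm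
  refine ⟨c, ?_, key f (fun t ht => hR t (ht.trans (min_le_left _ _))),
    key g (fun t ht => hS t (ht.trans ((min_le_right _ _).trans (min_le_left _ _)))),
    key w (fun t ht => hT t (ht.trans ((min_le_right _ _).trans (min_le_right _ _))))⟩
  rintro rfl
  have h := hc2 (⌊M⌋ - 1) le_rfl
  rw [map_one] at h
  have h' : ((⌊M⌋ : ℝ) - 1) = ((⌊M⌋ : ℝ) - 1) - 1 := h
  linarith

theorem Dat.el_pow (n₀ : ℤ) {k : F} (h1 : ∀ t : ℝ, n₀ ≤ t → D.a k t = t)
    (h2 : ∀ t : ℝ, t ≤ n₀ - 1 → D.a k t = t - 1) (p : ℕ) :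
    (∀ t : ℝ, n₀ ≤ t → D.a (k ^ p) t = t) ∧ ∀ t : ℝ, t ≤ n₀ - 1 → D.a (k ^ p) t = t - p := by
  induction p with
  | zero => constructor <;> intro t _ <;> simp
  | succ p ih =>
    constructor
    · intro t ht
      rw [pow_succ, map_mul, mul_ap, h1 t ht, ih.1 t ht]
    · intro t ht
      rw [pow_succ, map_mul, mul_ap, h2 t ht, ih.2 (t - 1) (by linarith)]
      push_cast
      ring

theorem Dat.er_pow (n₀ : ℤ) {k : F} (h1 : ∀ t : ℝ, t ≤ n₀ → D.a k t = t)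
    (h2 : ∀ t : ℝ, n₀ + 1 ≤ t → D.a k t = t + 1) (p : ℕ) :
    (∀ t : ℝ, t ≤ n₀ → D.a (k ^ p) t = t) ∧ ∀ t : ℝ, n₀ + 1 ≤ t → D.a (k ^ p) t = t + p := by
  induction p with
  | zero => constructor <;> intro t _ <;> simp
  | succ p ih =>
    constructor
    · intro t ht
      rw [pow_succ, map_mul, mul_ap, h1 t ht, ih.1 t ht]
    · intro t ht
      rw [pow_succ, map_mul, mul_ap, h2 t ht, ih.2 (t + 1) (by linarith)]
      push_cast
      ring

/-- a normal subgroup not inside `K0` contains an element outside `K0` with a fixed point -/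
theorem Dat.exists_fix (N : Subgroup F) [hN : N.Normal] {f : F} (hf : f ∈ N) (hf0 : f ∉ D.K0) :
    ∃ w ∈ N, w ∉ D.K0 ∧ ∃ x : ℝ, D.a w x = x := by
  obtain ⟨p, R, hR⟩ := D.right f
  have key : ∀ k : F, ∀ x : ℝ, D.a k x = x → D.a f (D.a f (D.a k ((D.a f)⁻¹ x))) = x →
      ∃ w ∈ N, w ∉ D.K0 ∧ ∃ x : ℝ, D.a w x = x := by
    intro k x hk hx
    refine ⟨f * f * (k * f⁻¹ * k⁻¹), N.mul_mem (N.mul_mem hf hf)
      (hN.conj_mem _ (N.inv_mem hf) k), ?_, x, ?_⟩
    · rw [← D.chi_eq_zero] at hf0 ⊢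
      rw [D.chi_mul, D.chi_conj, D.chi_mul, D.chi_inv]
      intro h
      apply hf0
      linarith
    · have hk' : (D.a k)⁻¹ x = x := by
        conv_lhs => rw [← hk]
        exact inv_ap_self _ _
      simp only [map_mul, map_inv, mul_ap]
      rw [hk']
      exact hx
  rcases lt_trichotomy p 0 with hp | hp | hp
  · -- `f` moves points near `+∞` to the left
    obtain ⟨q, hq⟩ : ∃ q : ℕ, p = -(q : ℤ) := ⟨(-p).toNat, by omega⟩
    have hq1 : 1 ≤ q := by omega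
    obtain ⟨k, hk1, hk2⟩ := D.er ⌈R⌉
    obtain ⟨hk1', hk2'⟩ := D.er_pow ⌈R⌉ hk1 hk2 q
    have hR0 : R ≤ ⌈R⌉ := Int.le_ceil R
    have hq1' : (1 : ℝ) ≤ q := by exact_mod_cast hq1
    have hp' : (p : ℝ) = -q := by rw [hq]; push_cast; ring
    apply key (k ^ q) ⌈R⌉ (hk1' _ le_rfl)
    have e1 : (D.a f)⁻¹ (⌈R⌉ : ℝ) = ⌈R⌉ + q := by
      have : D.a f ((⌈R⌉ : ℝ) + q) = ⌈R⌉ := by rw [hR _ (by linarith), hp']; ring
      conv_lhs => rw [← this]
      exact inv_ap_self _ _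
    rw [e1, hk2' _ (by linarith), hR (⌈R⌉ + q + q) (by linarith), hR _ (by linarith), hp']
    ring
  · subst hp
    exact ⟨f, hf, hf0, R, by rw [hR R le_rfl]; simp⟩
  · obtain ⟨q, hq⟩ : ∃ q : ℕ, p = (q : ℤ) := ⟨p.toNat, by omega⟩
    have hq1 : 1 ≤ q := by omega
    obtain ⟨k, hk1, hk2⟩ := D.el (⌈R⌉ + 2 * q)
    obtain ⟨hk1', hk2'⟩ := D.el_pow (⌈R⌉ + 2 * q) hk1 hk2 q
    push_cast at hk1' hk2'
    have hR0 : R ≤ ⌈R⌉ := Int.le_ceil R
    have hq1' : (1 : ℝ) ≤ q := by exact_mod_cast hq1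
    have hp' : (p : ℝ) = q := by rw [hq]; push_cast; ring
    apply key (k ^ q) (⌈R⌉ + 2 * q) (hk1' _ le_rfl)
    have e1 : (D.a f)⁻¹ ((⌈R⌉ : ℝ) + 2 * q) = ⌈R⌉ + q := by
      have : D.a f ((⌈R⌉ : ℝ) + q) = ⌈R⌉ + 2 * q := by rw [hR _ (by linarith), hp']; ring
      conv_lhs => rw [← this]
      exact inv_ap_self _ _
    rw [e1, hk2' _ (by linarith), hR (⌈R⌉ + q - q) (by linarith), hR _ (by linarith), hp']
    ring

/-- **A2** -/
theorem Dat.A2 (N : Subgroup F) [hN : N.Normal] (h0 : ¬ N ≤ D.K0) (h1 : ¬ N ≤ D.K1) :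
    ∃ f ∈ N, ∃ g ∈ N, ∃ w ∈ N, ∀ z : F, z * f = f * z → z * g = g * z → z * w = w * z →
      z = 1 := by
  obtain ⟨f₀, hf₀, hf₀'⟩ := Set.not_subset.1 h0
  obtain ⟨g₀, hg₀, hg₀'⟩ := Set.not_subset.1 h1
  obtain ⟨f₁, hf₁, m, hm, R, hR⟩ := D.exists_neg hf₀'
  obtain ⟨g, hg, n, hn, S, hS⟩ := D.rev.exists_neg hg₀'
  have hf₁N : f₁ ∈ N := by
    rcases hf₁ with rfl | rfl
    · exact hf₀
    · exact N.inv_mem hf₀
  have hgN : g ∈ N := by
    rcases hg with rfl | rfl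
    · exact hg₀
    · exact N.inv_mem hg₀
  obtain ⟨w, hwN, hw0, x, hx⟩ := D.exists_fix N hf₀ hf₀'
  -- push the good part of `f₁` to the right
  obtain ⟨j, hj⟩ := exists_nat_gt (-S - R)
  set f := D.tr ^ j * f₁ * (D.tr ^ j)⁻¹ with hf
  have hfN : f ∈ N := hN.conj_mem _ hf₁N _
  have hfR : ∀ t ≤ R + j, D.a f t = t - m := by
    intro t ht
    rw [hf, map_mul, map_mul, mul_ap, mul_ap, D.tr_pow_inv, hR _ (by linarith), D.tr_pow]
    ring
  refine ⟨f, hfN, g, hgN, w, hwN, fun z hzf hzg hzw => ?_⟩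
  -- `z` has a fixed point
  have hfix : ∃ y : ℝ, D.a z y = y := by
    set W : Set ℝ := {y | D.a w y = y} with hW
    have hne : W.Nonempty := ⟨x, hx⟩
    have hbd : BddBelow W := by
      obtain ⟨T, hT⟩ := D.chi_spec w
      refine ⟨T, fun y hy => ?_⟩
      by_contra hlt
      push Not at hlt
      have h2 := hT y hlt.le
      rw [show D.a w y = y from hy] at h2
      apply hw0
      rw [← D.chi_eq_zero]
      have h3 : (D.chi w : ℝ) = 0 := by linarith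
      exact_mod_cast h3
    have hcomm : ∀ t, D.a z (D.a w t) = D.a w (D.a z t) := by
      intro t
      rw [← mul_ap, ← mul_ap, ← map_mul, ← map_mul, hzw]
    have himg : D.a z '' W = W := by
      ext y
      constructor
      · rintro ⟨t, ht, rfl⟩
        show D.a w (D.a z t) = D.a z t
        rw [← hcomm, show D.a w t = t from ht]
      · intro hy
        refine ⟨(D.a z)⁻¹ y, ?_, ap_inv_self _ _⟩
        show D.a w ((D.a z)⁻¹ y) = (D.a z)⁻¹ y
        apply (D.a z).injective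
        rw [hcomm, ap_inv_self]
        exact hy
    refine ⟨sInf W, ?_⟩
    rw [OrderIso.map_csInf' _ hne hbd, himg]
  obtain ⟨y, hy⟩ := hfix
  have c0 : ∀ y : ℝ, y ≤ R + j → D.a z y = y → ∀ t ≤ R + j, D.a z t = t := fun y hy hzy =>
    D.claim1 (by exact_mod_cast hm) hfR hzf hy hzy
  have c1 : ∀ y : ℝ, -S ≤ y → D.a z y = y → ∀ t, -S ≤ t → D.a z t = t := by
    intro y hy hzy t ht
    have h2 : D.rev.a z (-y) = -y := by rw [D.rev_ap, neg_neg, hzy]
    have h3 := D.rev.claim1 (by exact_mod_cast hn) hS hzg (by linarith) h2 (-t) (by linarith)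
    rw [D.rev_ap, neg_neg] at h3
    linarith
  have hall : ∀ t, D.a z t = t := by
    have d0 : ∀ t ≤ R + j, D.a z t = t := by
      rcases le_total y (R + j) with h | h
      · exact c0 y h hy
      · have := c1 y (by linarith) hy (R + j) (by linarith)
        exact c0 _ le_rfl this
    have d1 : ∀ t, -S ≤ t → D.a z t = t := c1 (R + j) (by linarith) (d0 _ le_rfl)
    intro t
    rcases le_total t (R + j) with h | h
    · exact d0 t h
    · exact d1 t (by linarith)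
  apply D.inj
  rw [map_one]
  ext t
  exact hall t

/-- `K0` is not contained in `K1` -/
theorem Dat.not_le : ¬ D.K0 ≤ D.K1 := by
  intro h
  obtain ⟨g, hg1, hg2⟩ := D.er 0
  have h1 := h ⟨_, hg1⟩
  rw [D.mem_K1] at h1
  obtain ⟨R, hR⟩ := h1
  have h2 := hR (max R 1) (le_max_left _ _)
  rw [hg2 _ (by push_cast; linarith [le_max_right R 1])] at h2
  linarith

theorem Dat.not_le' : ¬ D.K1 ≤ D.K0 := by
  have := D.rev.not_le
  rwa [D.rev_K1] at this

/-- the property of being centralized -/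
def P3 (N : Subgroup F) : Prop := ∀ f ∈ N, ∀ g ∈ N, ∀ w ∈ N,
  ∃ c : F, c ≠ 1 ∧ c * f = f * c ∧ c * g = g * c ∧ c * w = w * c

theorem P3_map {N : Subgroup F} (h : P3 N) (α : F ≃* F) : P3 (N.map α.toMonoidHom) := by
  rintro _ ⟨f, hf, rfl⟩ _ ⟨g, hg, rfl⟩ _ ⟨w, hw, rfl⟩
  obtain ⟨c, hc, h1, h2, h3⟩ := h f hf g hg w hw
  refine ⟨α c, ?_, ?_, ?_, ?_⟩
  · intro h
    apply hc
    apply α.injective
    rw [h, map_one]
  · show α c * α f = α f * α c
    rw [← map_mul, h1, map_mul]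
  · show α c * α g = α g * α c
    rw [← map_mul, h2, map_mul]
  · show α c * α w = α w * α c
    rw [← map_mul, h3, map_mul]

theorem Dat.P3_K0 : P3 D.K0 := fun _ hf _ hg _ hw => D.A1 hf hg hw

theorem Dat.P3_K1 : P3 D.K1 := D.rev.P3_K0

theorem Dat.le_of_P3 (N : Subgroup F) [hN : N.Normal] (h : P3 N) : N ≤ D.K0 ∨ N ≤ D.K1 := by
  by_contra hcon
  push Not at hcon
  obtain ⟨f, hf, g, hg, w, hw, h1⟩ := D.A2 N hcon.1 hcon.2
  obtain ⟨c, hc, h2, h3, h4⟩ := h f hf g hg w hw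
  exact hc (h1 c h2 h3 h4)

/-- **A3** -/
theorem Dat.aut_map (α : F ≃* F) :
    D.K0.map α.toMonoidHom = D.K0 ∨ D.K0.map α.toMonoidHom = D.K1 := by
  have hn : ∀ (β : F ≃* F) (N : Subgroup F) [N.Normal], (N.map β.toMonoidHom).Normal :=
    fun β N _ => Subgroup.Normal.map inferInstance _ β.surjective
  have hinv : ∀ (M N : Subgroup F), M.map α.toMonoidHom ≤ N → M ≤ N.map α.symm.toMonoidHom := by
    intro M N h x hx
    exact ⟨α x, h ⟨x, hx, rfl⟩, α.symm_apply_apply x⟩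
  have hinv' : ∀ (M N : Subgroup F), M.map α.symm.toMonoidHom ≤ N → M ≤ N.map α.toMonoidHom := by
    intro M N h x hx
    exact ⟨α.symm x, h ⟨x, hx, rfl⟩, α.apply_symm_apply x⟩
  have a0 := hn α D.K0
  have a1 := hn α.symm D.K0
  have a2 := hn α.symm D.K1
  rcases D.le_of_P3 _ (P3_map D.P3_K0 α) with h | h
  · left
    apply le_antisymm h
    apply hinv'
    rcases D.le_of_P3 _ (P3_map D.P3_K0 α.symm) with h' | h'
    · exact h'
    · exact absurd ((hinv _ _ h).trans h') D.not_le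
  · right
    apply le_antisymm h
    apply hinv'
    rcases D.le_of_P3 _ (P3_map D.P3_K1 α.symm) with h' | h'
    · exact h'
    · exact absurd ((hinv _ _ h).trans h') D.not_le

/-- **A3**, in a convenient form -/
theorem Dat.aut_cases (α : F ≃* F) :
    ((∀ g, α g ∈ D.K0 ↔ g ∈ D.K0) ∧ (∀ g, α g ∈ D.K1 ↔ g ∈ D.K1)) ∨
    ((∀ g, α g ∈ D.K1 ↔ g ∈ D.K0) ∧ (∀ g, α g ∈ D.K0 ↔ g ∈ D.K1)) := by
  have key : ∀ M N : Subgroup F, M.map α.toMonoidHom = N → ∀ g, α g ∈ N ↔ g ∈ M := by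
    intro M N h g
    rw [← h]
    constructor
    · rintro ⟨x, hx, hxg⟩
      rwa [← α.injective hxg]
    · intro hg
      exact ⟨g, hg, rfl⟩
  have h0 := D.aut_map α
  have h1 := D.rev.aut_map α
  rw [D.rev_K1] at h1
  change D.K1.map α.toMonoidHom = D.K1 ∨ D.K1.map α.toMonoidHom = D.K0 at h1
  have hne : D.K0.map α.toMonoidHom ≠ D.K1.map α.toMonoidHom := by
    intro h
    have := Subgroup.map_injective α.injective h
    exact D.not_le this.le
  rcases h0 with h0 | h0 <;> rcases h1 with h1 | h1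
  · exact Or.inl ⟨key _ _ h0, key _ _ h1⟩
  · exact absurd (h0.trans h1.symm) hne
  · exact absurd (h0.trans h1.symm) hne
  · exact Or.inr ⟨key _ _ h0, key _ _ h1⟩

end Pool.Agent.X261.FI
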