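import Mathlib

/-!
# Groups acting on the line by translations near both ends
-/

set_option autoImplicit false

namespace Pool.Agent.X261.FI

theorem mul_ap (f g : ℝ ≃o ℝ) (t : ℝ) : (f * g) t = f (g t) := rfl
theorem inv_ap_self (f : ℝ ≃o ℝ) (t : ℝ) : f⁻¹ (f t) = t := f.symm_apply_apply t
theorem ap_inv_self (f : ℝ ≃o ℝ) (t : ℝ) : f (f⁻¹ t) = t := f.apply_symm_apply t

theorem comm_of_fix {p q : ℝ ≃o ℝ} (e : ℝ) (hp : ∀ t ≤ e, p t = t) (hq : ∀ t, e ≤ t → q t = t) :
    p * q = q * p := by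
  ext t
  rw [mul_ap, mul_ap]
  rcases le_total t e with h | h
  · have h1 : q t ≤ e := by
      have := q.monotone h
      rwa [hq e le_rfl] at this
    rw [hp _ h1, hp _ h]
  · have h1 : e ≤ p t := by
      have := p.monotone h
      rwa [hp e le_rfl] at this
    rw [hq _ h1, hq _ h]

/-- A group acting faithfully on the line by increasing bijections which are integral
translations near both ends, with sufficiently many elements. -/
structure Dat (F : Type) [Group F] where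
  /-- the action -/
  a : F →* (ℝ ≃o ℝ)
  inj : Function.Injective a
  left : ∀ g, ∃ m : ℤ, ∃ R : ℝ, ∀ t ≤ R, a g t = t + m
  right : ∀ g, ∃ m : ℤ, ∃ R : ℝ, ∀ t, R ≤ t → a g t = t + m
  /-- a translation -/
  tr : F
  tr_apply : ∀ t, a tr t = t + 1
  el : ∀ R : ℤ, ∃ g, (∀ t : ℝ, R ≤ t → a g t = t) ∧ ∀ t : ℝ, t ≤ R - 1 → a g t = t - 1
  er : ∀ R : ℤ, ∃ g, (∀ t : ℝ, t ≤ R → a g t = t) ∧ ∀ t : ℝ, R + 1 ≤ t → a g t = t + 1

/-- conjugation by `t ↦ -t` -/
def flip (f : ℝ ≃o ℝ) : ℝ ≃o ℝ where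
  toFun t := -(f (-t))
  invFun t := -(f.symm (-t))
  left_inv t := by simp
  right_inv t := by simp
  map_rel_iff' := by
    intro s t
    simp

theorem flip_ap (f : ℝ ≃o ℝ) (t : ℝ) : flip f t = -(f (-t)) := rfl

/-- conjugation by `t ↦ -t` as a homomorphism -/
def flipHom : (ℝ ≃o ℝ) →* (ℝ ≃o ℝ) where
  toFun := flip
  map_one' := by
    ext t
    show -(-t) = t
    ring
  map_mul' f g := by
    ext t
    rw [mul_ap, flip_ap, flip_ap, flip_ap, mul_ap, neg_neg]

theorem flip_flip (f : ℝ ≃o ℝ) : flip (flip f) = f := by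
  ext t
  rw [flip_ap, flip_ap, neg_neg, neg_neg]

variable {F : Type} [Group F]

/-- the mirror image of a datum -/
def Dat.rev (D : Dat F) : Dat F where
  a := flipHom.comp D.a
  inj := by
    intro x y h
    apply D.inj
    have h1 : flip (D.a x) = flip (D.a y) := h
    rw [← flip_flip (D.a x), h1, flip_flip]
  left g := by
    obtain ⟨m, R, h⟩ := D.right g
    refine ⟨-m, -R, fun t ht => ?_⟩
    show -(D.a g (-t)) = _
    rw [h (-t) (by linarith)]
    push_cast
    ring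
  right g := by
    obtain ⟨m, R, h⟩ := D.left g
    refine ⟨-m, -R, fun t ht => ?_⟩
    show -(D.a g (-t)) = _
    rw [h (-t) (by linarith)]
    push_cast
    ring
  tr := D.tr⁻¹
  tr_apply t := by
    show -(D.a D.tr⁻¹ (-t)) = _
    rw [map_inv]
    have h1 : (D.a D.tr)⁻¹ (-t) = -t - 1 := by
      have h2 := D.tr_apply (-t - 1)
      have h3 : D.a D.tr (-t - 1) = -t := by rw [h2]; ring
      rw [← h3, inv_ap_self]
      rw [h3]
    rw [h1]
    ring
  el R := by
    obtain ⟨g, h1, h2⟩ := D.er (-R)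
    push_cast at h1 h2
    refine ⟨g, fun t ht => ?_, fun t ht => ?_⟩
    · show -(D.a g (-t)) = _
      rw [h1 (-t) (by linarith)]
      ring
    · show -(D.a g (-t)) = _
      rw [h2 (-t) (by linarith)]
      ring
  er R := by
    obtain ⟨g, h1, h2⟩ := D.el (-R)
    push_cast at h1 h2
    refine ⟨g, fun t ht => ?_, fun t ht => ?_⟩
    · show -(D.a g (-t)) = _
      rw [h1 (-t) (by linarith)]
      ring
    · show -(D.a g (-t)) = _
      rw [h2 (-t) (by linarith)]
      ring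

variable (D : Dat F)

theorem Dat.rev_ap (g : F) (t : ℝ) : D.rev.a g t = -(D.a g (-t)) := rfl

/-- the elements fixing all points up to `R` -/
def Dat.U (R : ℝ) : Subgroup F where
  carrier := {g | ∀ t ≤ R, D.a g t = t}
  one_mem' := fun t _ => by simp
  mul_mem' := by
    intro g h hg hh t ht
    rw [map_mul, mul_ap, hh t ht, hg t ht]
  inv_mem' := by
    intro g hg t ht
    rw [map_inv]
    conv_lhs => rw [← hg t ht]
    exact inv_ap_self _ _

/-- the elements trivial near `-∞` -/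
def Dat.K0 : Subgroup F where
  carrier := {g | ∃ R : ℝ, ∀ t ≤ R, D.a g t = t}
  one_mem' := ⟨0, fun t _ => by simp⟩
  mul_mem' := by
    rintro g h ⟨R, hg⟩ ⟨S, hh⟩
    refine ⟨min R S, fun t ht => ?_⟩
    rw [map_mul, mul_ap, hh t (ht.trans (min_le_right _ _)), hg t (ht.trans (min_le_left _ _))]
  inv_mem' := by
    rintro g ⟨R, hg⟩
    refine ⟨R, fun t ht => ?_⟩
    rw [map_inv]
    conv_lhs => rw [← hg t ht]
    exact inv_ap_self _ _

theorem Dat.mem_U {R : ℝ} {g : F} : g ∈ D.U R ↔ ∀ t ≤ R, D.a g t = t := Iff.rfl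

theorem Dat.mem_K0 {g : F} : g ∈ D.K0 ↔ ∃ R : ℝ, ∀ t ≤ R, D.a g t = t := Iff.rfl

/-- the elements trivial near `+∞` -/
def Dat.K1 : Subgroup F := D.rev.K0

theorem Dat.mem_K1 {g : F} : g ∈ D.K1 ↔ ∃ R : ℝ, ∀ t, R ≤ t → D.a g t = t := by
  constructor
  · rintro ⟨R, h⟩
    refine ⟨-R, fun t ht => ?_⟩
    have := h (-t) (by linarith)
    rw [D.rev_ap, neg_neg] at this
    linarith
  · rintro ⟨R, h⟩
    refine ⟨-R, fun t ht => ?_⟩
    rw [D.rev_ap, h (-t) (by linarith), neg_neg]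

theorem Dat.rev_K1 : D.rev.K1 = D.K0 := by
  ext g
  rw [Dat.mem_K1, Dat.mem_K0]
  constructor
  · rintro ⟨R, h⟩
    refine ⟨-R, fun t ht => ?_⟩
    have := h (-t) (by linarith)
    rw [D.rev_ap, neg_neg] at this
    linarith
  · rintro ⟨R, h⟩
    refine ⟨-R, fun t ht => ?_⟩
    rw [D.rev_ap, h (-t) (by linarith), neg_neg]

/-- the translation length near `-∞` -/
noncomputable def Dat.chi (g : F) : ℤ := (D.left g).choose

theorem Dat.chi_spec (g : F) : ∃ R : ℝ, ∀ t ≤ R, D.a g t = t + D.chi g := (D.left g).choose_spec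

theorem Dat.chi_unique {g : F} {m : ℤ} (h : ∃ R : ℝ, ∀ t ≤ R, D.a g t = t + m) :
    D.chi g = m := by
  obtain ⟨R, h⟩ := h
  obtain ⟨S, h'⟩ := D.chi_spec g
  have h1 := h (min R S) (min_le_left _ _)
  have h2 := h' (min R S) (min_le_right _ _)
  have h3 : (D.chi g : ℝ) = m := by linarith
  exact_mod_cast h3

theorem Dat.chi_mul (g h : F) : D.chi (g * h) = D.chi g + D.chi h := by
  obtain ⟨R, hR⟩ := D.chi_spec g
  obtain ⟨S, hS⟩ := D.chi_spec h
  apply D.chi_unique
  refine ⟨min S (R - D.chi h), fun t ht => ?_⟩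
  have h1 : t ≤ S := ht.trans (min_le_left _ _)
  have h2 : t ≤ R - D.chi h := ht.trans (min_le_right _ _)
  rw [map_mul, mul_ap, hS t h1, hR _ (by linarith)]
  push_cast
  ring

theorem Dat.chi_one : D.chi 1 = 0 := D.chi_unique ⟨0, fun t _ => by simp⟩

/-- the homomorphism `chi` -/
noncomputable def Dat.chiHom : F →* Multiplicative ℤ where
  toFun g := Multiplicative.ofAdd (D.chi g)
  map_one' := by rw [D.chi_one]; rfl
  map_mul' g h := by rw [D.chi_mul]; rfl

theorem Dat.chi_inv (g : F) : D.chi g⁻¹ = - D.chi g := by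
  have h := D.chi_mul g g⁻¹
  rw [mul_inv_cancel, D.chi_one] at h
  linarith

theorem Dat.chi_zpow (g : F) (n : ℤ) : D.chi (g ^ n) = n * D.chi g := by
  have h := map_zpow D.chiHom g n
  have h1 := congrArg Multiplicative.toAdd h
  rw [toAdd_zpow] at h1
  have h2 : D.chi (g ^ n) = n • D.chi g := h1
  rw [h2, smul_eq_mul]

theorem Dat.chi_pow (g : F) (n : ℕ) : D.chi (g ^ n) = n * D.chi g := by
  rw [← zpow_natCast, D.chi_zpow]

theorem Dat.chi_eq_zero {g : F} : D.chi g = 0 ↔ g ∈ D.K0 := by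
  constructor
  · intro h
    obtain ⟨R, hR⟩ := D.chi_spec g
    refine ⟨R, fun t ht => ?_⟩
    rw [hR t ht, h]
    simp
  · rintro ⟨R, hR⟩
    exact D.chi_unique ⟨R, fun t ht => by rw [hR t ht]; simp⟩

theorem Dat.chi_tr : D.chi D.tr = 1 :=
  D.chi_unique ⟨0, fun t _ => by rw [D.tr_apply]; simp⟩

theorem Dat.chi_conj (g h : F) : D.chi (g * h * g⁻¹) = D.chi h := by
  rw [D.chi_mul, D.chi_mul, D.chi_inv]
  ring

instance : D.K0.Normal where
  conj_mem := by
    intro n hn g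
    rw [← D.chi_eq_zero] at hn ⊢
    rw [D.chi_conj, hn]

instance : D.K1.Normal := inferInstanceAs (D.rev.K0.Normal)

theorem Dat.tr_pow (n : ℕ) (t : ℝ) : D.a (D.tr ^ n) t = t + n := by
  induction n generalizing t with
  | zero => simp
  | succ n ih =>
    rw [pow_succ, map_mul, mul_ap, D.tr_apply, ih]
    push_cast
    ring

theorem Dat.tr_pow_inv (n : ℕ) (t : ℝ) : D.a ((D.tr ^ n)⁻¹) t = t - n := by
  have h1 : D.a (D.tr ^ n) (t - n) = t := by rw [D.tr_pow]; ring
  rw [map_inv]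
  conv_lhs => rw [← h1]
  exact inv_ap_self _ _

/-- iterating a translation near `-∞` -/
theorem Dat.iter {f : F} {m R : ℝ} (hm : 0 ≤ m) (hf : ∀ t ≤ R, D.a f t = t - m) (n : ℕ) :
    ∀ t ≤ R, D.a (f ^ n) t = t - n * m := by
  induction n with
  | zero => intro t _; simp
  | succ n ih =>
    intro t ht
    rw [pow_succ, map_mul, mul_ap, hf t ht, ih (t - m) (by linarith)]
    push_cast
    ring

/-- **Claim 1.** -/
theorem Dat.claim1 {f z : F} {m R y : ℝ} (hm : 0 < m) (hf : ∀ t ≤ R, D.a f t = t - m)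
    (hz : z * f = f * z) (hy : y ≤ R) (hzy : D.a z y = y) : ∀ t ≤ R, D.a z t = t := by
  have hcomm : ∀ (n : ℕ) (t : ℝ), D.a z (D.a (f ^ n) t) = D.a (f ^ n) (D.a z t) := by
    intro n t
    have h : Commute z (f ^ n) := Commute.pow_right hz n
    rw [← mul_ap, ← mul_ap, ← map_mul, ← map_mul, h.eq]
  have harch : ∀ s : ℝ, ∃ n : ℕ, ∀ t ≤ R, t - n * m ≤ s := by
    intro s
    obtain ⟨n, hn⟩ := exists_nat_gt ((R - s) / m)
    refine ⟨n, fun t ht => ?_⟩
    rw [div_lt_iff₀ hm] at hn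
    linarith
  obtain ⟨S, hS⟩ := D.chi_spec z
  have hchi : (D.chi z : ℝ) = 0 := by
    obtain ⟨n, hn⟩ := harch S
    have h1 := hcomm n y
    rw [hzy, D.iter hm.le hf n y hy, hS _ (hn y hy)] at h1
    linarith
  intro t ht
  obtain ⟨n, hn⟩ := harch S
  have h1 := hcomm n t
  rw [D.iter hm.le hf n t ht, hS _ (hn t ht), hchi, add_zero] at h1
  rw [← D.iter hm.le hf n t ht] at h1
  exact (D.a (f ^ n)).injective h1.symm

end Pool.Agent.X261.FI
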