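import Pool.Agent.X261.FI.Aut

/-!
# Groups whose derived subgroup is a group of homeomorphisms of the line
-/

set_option autoImplicit false

open scoped commutatorElement

namespace Pool.Agent.X261.FI

universe u

variable {F : Type} {H : Type u} [Group F] [Group H]

/-- A group `H` containing `F` as a normal subgroup which contains the commutators. -/
structure Ext (F : Type) (H : Type u) [Group F] [Group H] where
  /-- the action by conjugation -/
  α : H →* MulAut F
  /-- the inclusion -/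
  ι : F →* H
  inj : Function.Injective ι
  conj : ∀ (u : H) (f : F), ι (α u f) = u * ι f * u⁻¹
  comm : ∀ u v : H, ∃ f : F, ι f = u * v * u⁻¹ * v⁻¹

variable (D : Dat F) (E : Ext F H)

theorem Ext.conj' (f g : F) : E.α (E.ι f) g = f * g * f⁻¹ := by
  apply E.inj
  rw [E.conj, map_mul, map_mul, map_inv]

/-- elements preserving `K0` -/
def Ext.Pres (u : H) : Prop := ∀ g, E.α u g ∈ D.K0 ↔ g ∈ D.K0

variable {D E}

theorem Ext.pres_mul {u v : H} (hu : E.Pres D u) (hv : E.Pres D v) : E.Pres D (u * v) := by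
  intro g
  rw [map_mul, MulAut.mul_apply, hu, hv]

theorem Ext.pres_one : E.Pres D 1 := by
  intro g
  rw [map_one, MulAut.one_apply]

theorem Ext.pres_inv {u : H} (hu : E.Pres D u) : E.Pres D u⁻¹ := by
  intro g
  rw [← hu, ← MulAut.mul_apply, ← map_mul, mul_inv_cancel, map_one, MulAut.one_apply]

theorem Ext.pres_pow {u : H} (hu : E.Pres D u) (n : ℕ) : E.Pres D (u ^ n) := by
  induction n with
  | zero => rw [pow_zero]; exact Ext.pres_one
  | succ n ih => rw [pow_succ]; exact Ext.pres_mul ih hu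

theorem Ext.pres_ι (f : F) : E.Pres D (E.ι f) := by
  intro g
  rw [E.conj', ← D.chi_eq_zero, ← D.chi_eq_zero, D.chi_conj]

theorem Ext.chi_pres {u : H} (hu : E.Pres D u) (f : F) : D.chi (E.α u f) = D.chi f :=
  D.chi_aut (E.α u) hu f

variable (D E)

/-- the shift is bounded by `c` -/
def Ext.Bd (u : H) (c : ℝ) : Prop := ∃ R₀ : ℝ, ∀ R ≤ R₀, ∀ g ∈ D.U R, E.α u g ∈ D.U (R - c)

variable {D E}

theorem Ext.bd_mul {u v : H} {c d : ℝ} (hu : E.Bd D u c) (hv : E.Bd D v d) :
    E.Bd D (u * v) (c + d) := by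
  obtain ⟨R, hR⟩ := hu
  obtain ⟨S, hS⟩ := hv
  refine ⟨min S (R + d), fun T hT g hg => ?_⟩
  have h1 := hS T (hT.trans (min_le_left _ _)) g hg
  have h2 := hR (T - d) (by linarith [hT.trans (min_le_right S (R + d))]) _ h1
  rw [map_mul, MulAut.mul_apply]
  rw [show T - (c + d) = T - d - c by ring]
  exact h2

theorem Ext.bd_ι (f : F) : E.Bd D (E.ι f) (-(D.chi f : ℝ)) := by
  obtain ⟨R, hR⟩ := D.chi_spec f⁻¹
  obtain ⟨S, hS⟩ := D.chi_spec f
  refine ⟨min S (R - D.chi f), fun T hT g hg => ?_⟩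
  rw [E.conj']
  intro t ht
  have hSR1 := min_le_left S (R - D.chi f)
  have hSR2 := min_le_right S (R - D.chi f)
  rw [D.chi_inv] at hR
  push_cast at hR
  rw [map_mul, map_mul, mul_ap, mul_ap, hR t (by linarith), hg _ (by linarith),
    hS _ (by linarith)]
  ring

theorem Ext.exists_bd {u : H} (hu : E.Pres D u) : ∃ c : ℝ, E.Bd D u c := by
  obtain ⟨R₂, hR₂⟩ := D.B1 (E.α u) hu 0
  have hτ := Ext.chi_pres hu D.tr
  rw [D.chi_tr] at hτ
  obtain ⟨R₃, hR₃⟩ := D.chi_spec (E.α u D.tr)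
  rw [hτ] at hR₃
  push_cast at hR₃
  set R₄ := min R₂ (R₃ - 1) with hR₄
  have hinv : ∀ t ≤ R₄, D.a (E.α u D.tr)⁻¹ t = t - 1 := by
    intro t ht
    have h1 : D.a (E.α u D.tr) (t - 1) = t := by
      rw [hR₃ _ (by linarith [min_le_right R₂ (R₃ - 1)])]
      ring
    rw [map_inv]
    conv_lhs => rw [← h1]
    exact inv_ap_self _ _
  -- the case of integral shifts
  have key : ∀ (n : ℕ), ∀ g ∈ D.U (-(n : ℝ)), E.α u g ∈ D.U (R₄ - n) := by
    intro n g hg
    have h1 : D.tr ^ n * g * (D.tr ^ n)⁻¹ ∈ D.U 0 := by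
      intro t ht
      rw [map_mul, map_mul, mul_ap, mul_ap, D.tr_pow_inv, hg _ (by linarith), D.tr_pow]
      ring
    have h2 := hR₂ _ h1
    rw [map_mul, map_mul, map_inv, map_pow] at h2
    intro t ht
    have h0 : (0 : ℝ) ≤ n := Nat.cast_nonneg n
    -- `s = τ' ^ n t`
    have h3 : ∀ s ≤ R₄, D.a ((E.α u D.tr)⁻¹ ^ n) s = s - n := by
      intro s hs
      have := D.iter (f := (E.α u D.tr)⁻¹) (m := 1) (R := R₄) (by norm_num) hinv n s hs
      rw [this]
      ring
    have h4 := h3 (t + n) (by linarith)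
    rw [add_sub_cancel_right, inv_pow, map_inv] at h4
    have h5 : D.a (E.α u D.tr ^ n) t = t + n := by
      conv_lhs => rw [← h4]
      exact ap_inv_self _ _
    have h6 := h2 (t + n) (by linarith [min_le_left R₂ (R₃ - 1)])
    rw [map_mul, map_mul, mul_ap, mul_ap, map_inv, h4] at h6
    have h7 : D.a (E.α u D.tr ^ n) (D.a (E.α u g) t) = D.a (E.α u D.tr ^ n) t := by
      rw [h6, h5]
    exact (D.a (E.α u D.tr ^ n)).injective h7
  refine ⟨1 - R₄, 0, fun R hR g hg => ?_⟩
  have h1 : (0 : ℝ) ≤ -R := by linarith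
  have h2 : -R ≤ (⌈-R⌉₊ : ℝ) := Nat.le_ceil _
  have h3 : (⌈-R⌉₊ : ℝ) < -R + 1 := Nat.ceil_lt_add_one h1
  have h4 := key ⌈-R⌉₊ g (D.U_mono (by linarith) hg)
  exact D.U_mono (by linarith) h4

theorem Ext.bd_one {c : ℝ} (h : E.Bd D 1 c) : 0 ≤ c := by
  by_contra hc
  push Not at hc
  have hpow : ∀ n : ℕ, E.Bd D 1 ((n + 1 : ℕ) * c) := by
    intro n
    induction n with
    | zero => simpa using h
    | succ n ih =>
      have := Ext.bd_mul ih h
      rw [one_mul] at this
      rw [show ((n + 1 + 1 : ℕ) : ℝ) * c = ((n + 1 : ℕ) : ℝ) * c + c by push_cast; ring]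
      exact this
  obtain ⟨n, hn⟩ := exists_nat_gt (2 / (-c))
  rw [div_lt_iff₀ (by linarith)] at hn
  obtain ⟨R₀, hR₀⟩ := hpow n
  obtain ⟨g, hg1, hg2⟩ := D.er ⌊R₀⌋
  have h1 := hR₀ ⌊R₀⌋ (Int.floor_le R₀) g hg1
  rw [map_one, MulAut.one_apply] at h1
  have h2 := h1 (⌊R₀⌋ + 1) (by push_cast; nlinarith)
  rw [hg2 _ le_rfl] at h2
  linarith

/-- the optimal shift -/
noncomputable def Ext.c (D : Dat F) (E : Ext F H) (u : H) : ℝ := sInf {c | E.Bd D u c}

theorem Ext.bddBelow {u : H} (hu : E.Pres D u) : BddBelow {c | E.Bd D u c} := by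
  obtain ⟨d, hd⟩ := Ext.exists_bd (Ext.pres_inv hu)
  refine ⟨-d, fun c hc => ?_⟩
  have h1 := Ext.bd_mul hc hd
  rw [mul_inv_cancel] at h1
  have := Ext.bd_one h1
  linarith

theorem Ext.c_mul {u v : H} (hu : E.Pres D u) (hv : E.Pres D v) :
    Ext.c D E (u * v) ≤ Ext.c D E u + Ext.c D E v := by
  have h1 : ∀ c, E.Bd D u c → ∀ d, E.Bd D v d → Ext.c D E (u * v) ≤ c + d := fun c hc d hd =>
    csInf_le (Ext.bddBelow (Ext.pres_mul hu hv)) (Ext.bd_mul hc hd)
  have h2 : ∀ c, E.Bd D u c → Ext.c D E (u * v) - c ≤ Ext.c D E v := by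
    intro c hc
    apply le_csInf (Ext.exists_bd hv)
    intro d hd
    linarith [h1 c hc d hd]
  have h3 : Ext.c D E (u * v) - Ext.c D E v ≤ Ext.c D E u := by
    apply le_csInf (Ext.exists_bd hu)
    intro c hc
    linarith [h2 c hc]
  linarith

theorem Ext.c_ι (f : F) : Ext.c D E (E.ι f) ≤ -(D.chi f : ℝ) :=
  csInf_le (Ext.bddBelow (Ext.pres_ι f)) (Ext.bd_ι f)

theorem Ext.c_ι_mul (f : F) {u : H} (hu : E.Pres D u) :
    Ext.c D E (E.ι f * u) = Ext.c D E u - D.chi f := by
  apply le_antisymm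
  · have h1 := Ext.c_mul (Ext.pres_ι (D := D) f) hu
    have h2 := Ext.c_ι (D := D) (E := E) f
    linarith
  · have h1 := Ext.c_mul (Ext.pres_ι (D := D) f⁻¹) (Ext.pres_mul (Ext.pres_ι f) hu)
    have h2 := Ext.c_ι (D := D) (E := E) f⁻¹
    rw [← mul_assoc, ← map_mul, inv_mul_cancel, map_one, one_mul] at h1
    rw [D.chi_inv] at h2
    push_cast at h2
    linarith

/-- **C** -/
theorem Ext.comm_chi {h k : H} (hh : E.Pres D h) (hk : E.Pres D k) {f : F}
    (hf : E.ι f = h * k * h⁻¹ * k⁻¹) : f ∈ D.K0 := by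
  rw [← D.chi_eq_zero]
  have key : ∀ n : ℕ, ∃ fn : F, D.chi fn = n * D.chi f ∧ h * k ^ n * h⁻¹ = E.ι fn * k ^ n := by
    intro n
    induction n with
    | zero => exact ⟨1, by rw [D.chi_one]; simp, by simp⟩
    | succ n ih =>
      obtain ⟨fn, h1, h2⟩ := ih
      refine ⟨fn * E.α (k ^ n) f, ?_, ?_⟩
      · rw [D.chi_mul, h1, Ext.chi_pres (Ext.pres_pow hk n)]
        push_cast
        ring
      · rw [map_mul, E.conj, hf, pow_succ]
        have : h * (k ^ n * k) * h⁻¹ = (h * k ^ n * h⁻¹) * (h * k * h⁻¹) := by group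
        rw [this, h2]
        group
  by_contra hne
  set M := Ext.c D E h + Ext.c D E h⁻¹ with hM
  have hbound : ∀ n : ℕ, (n : ℝ) * D.chi f ≤ M ∧ -((n : ℝ) * D.chi f) ≤ M := by
    intro n
    obtain ⟨fn, h1, h2⟩ := key n
    have hkn : E.Pres D (k ^ n) := Ext.pres_pow hk n
    have e1 : Ext.c D E (h * k ^ n * h⁻¹) = Ext.c D E (k ^ n) - (n : ℝ) * D.chi f := by
      rw [h2, Ext.c_ι_mul fn hkn, h1]
      push_cast
      ring
    have hp : E.Pres D (h * k ^ n * h⁻¹) := Ext.pres_mul (Ext.pres_mul hh hkn) (Ext.pres_inv hh)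
    have e2 := Ext.c_mul (Ext.pres_mul hh hkn) (Ext.pres_inv hh)
    have e3 := Ext.c_mul hh hkn
    have e4 := Ext.c_mul (Ext.pres_mul (Ext.pres_inv hh) hp) hh
    have e5 := Ext.c_mul (Ext.pres_inv hh) hp
    have e6 : h⁻¹ * (h * k ^ n * h⁻¹) * h = k ^ n := by group
    rw [e6] at e4
    constructor <;> linarith
  have hne' : (D.chi f : ℝ) ≠ 0 := by exact_mod_cast hne
  rcases lt_or_gt_of_ne hne' with h1 | h1
  · obtain ⟨n, hn⟩ := exists_nat_gt (M / (-(D.chi f : ℝ)))
    rw [div_lt_iff₀ (by linarith)] at hn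
    have := (hbound n).2
    linarith
  · obtain ⟨n, hn⟩ := exists_nat_gt (M / (D.chi f : ℝ))
    rw [div_lt_iff₀ (by linarith)] at hn
    have := (hbound n).1
    linarith

/-- elements preserving `K0` and `K1` -/
def Ext.Pres2 (D : Dat F) (E : Ext F H) (u : H) : Prop := E.Pres D u ∧ E.Pres D.rev u

theorem Ext.cases (u : H) : Ext.Pres2 D E u ∨
    ((∀ g, E.α u g ∈ D.K1 ↔ g ∈ D.K0) ∧ (∀ g, E.α u g ∈ D.K0 ↔ g ∈ D.K1)) :=
  D.aut_cases (E.α u)

/-- **Main theorem.** The image of `F` is not contained in the derived subgroup. -/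
theorem Ext.main (D : Dat F) (E : Ext F H) (h : ∀ f : F, E.ι f ∈ commutator H) : False := by
  -- `N`
  let N : Subgroup F := D.K0 ⊓ D.K1
  have hNα : ∀ (u : H) (g : F), g ∈ N → E.α u g ∈ N := by
    intro u g hg
    rcases Ext.cases (D := D) (E := E) u with hu | hu
    · exact ⟨(hu.1 g).2 hg.1, (hu.2 g).2 hg.2⟩
    · exact ⟨(hu.2 g).2 hg.2, (hu.1 g).2 hg.1⟩
  let NH : Subgroup H := N.map E.ι
  have hNH : NH.Normal := by
    constructor
    rintro _ ⟨n, hn, rfl⟩ g
    exact ⟨E.α g n, hNα g n hn, E.conj g n⟩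
  have hcomm : ∀ u v : H, Ext.Pres2 D E u → Ext.Pres2 D E v → u * v * u⁻¹ * v⁻¹ ∈ NH := by
    intro u v hu hv
    obtain ⟨f, hf⟩ := E.comm u v
    exact ⟨f, ⟨Ext.comm_chi hu.1 hv.1 hf, Ext.comm_chi (D := D.rev) hu.2 hv.2 hf⟩, hf⟩
  by_cases hall : ∀ u : H, Ext.Pres2 D E u
  · -- everything preserves `K0`
    have h1 : commutator H ≤ NH := by
      rw [commutator_def, Subgroup.commutator_le]
      intro u _ v _
      rw [commutatorElement_def]
      exact hcomm u v (hall u) (hall v)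
    obtain ⟨f, hf, hff⟩ := h1 (h D.tr)
    have h2 : f = D.tr := E.inj hff
    rw [h2] at hf
    have h3 := D.chi_eq_zero.2 hf.1
    rw [D.chi_tr] at h3
    exact one_ne_zero h3
  · push Not at hall
    obtain ⟨s, hs⟩ := hall
    have hs' := (Ext.cases (D := D) (E := E) s).resolve_left hs
    -- the quotient
    let π : H →* H ⧸ NH := QuotientGroup.mk' NH
    have hπ : ∀ u v : H, Ext.Pres2 D E u → Ext.Pres2 D E v → Commute (π u) (π v) := by
      intro u v hu hv
      have h1 := (QuotientGroup.eq_one_iff (N := NH) _).2 (hcomm u v hu hv)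
      have h2 : π u * π v * (π u)⁻¹ * (π v)⁻¹ = 1 := h1
      rw [mul_inv_eq_one, mul_inv_eq_iff_eq_mul] at h2
      exact h2
    have hι : ∀ f : F, Ext.Pres2 D E (E.ι f) := fun f => ⟨Ext.pres_ι f, Ext.pres_ι f⟩
    -- product of two swapping elements
    have hswap : ∀ u v : H, ¬ Ext.Pres2 D E u → ¬ Ext.Pres2 D E v → Ext.Pres2 D E (u * v) := by
      intro u v hu hv
      have hu' := (Ext.cases (D := D) (E := E) u).resolve_left hu
      have hv' := (Ext.cases (D := D) (E := E) v).resolve_left hv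
      constructor
      · intro g
        rw [map_mul, MulAut.mul_apply, hu'.2, hv'.1]
      · intro g
        rw [map_mul, MulAut.mul_apply]
        exact (hu'.1 _).trans (hv'.2 g)
    have hsinv : ¬ Ext.Pres2 D E s⁻¹ := by
      intro h1
      apply hs
      have := Ext.pres_inv h1.1
      rw [inv_inv] at this
      have h2 := Ext.pres_inv h1.2
      rw [inv_inv] at h2
      exact ⟨this, h2⟩
    have hmul : ∀ u v : H, Ext.Pres2 D E u → Ext.Pres2 D E v → Ext.Pres2 D E (u * v) :=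
      fun u v hu hv => ⟨Ext.pres_mul hu.1 hv.1, Ext.pres_mul hu.2 hv.2⟩
    have hinv : ∀ u : H, Ext.Pres2 D E u → Ext.Pres2 D E u⁻¹ :=
      fun u hu => ⟨Ext.pres_inv hu.1, Ext.pres_inv hu.2⟩
    have hconj : ∀ u : H, Ext.Pres2 D E u → Ext.Pres2 D E (s * u * s⁻¹) := by
      intro u hu
      apply hswap
      · intro h1
        apply hs
        have := hmul _ _ h1 (hinv u hu)
        rwa [mul_inv_cancel_right] at this
      · exact hsinv
    have hss : Ext.Pres2 D E (s * s) := hswap s s hs hs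
    -- the subgroup of elements inverted by `s`
    let L : Subgroup H :=
      { carrier := {x | Ext.Pres2 D E x ∧ π s * π x * (π s)⁻¹ = (π x)⁻¹}
        one_mem' := ⟨⟨Ext.pres_one, Ext.pres_one⟩, by simp⟩
        mul_mem' := by
          rintro x y ⟨hx, hx'⟩ ⟨hy, hy'⟩
          refine ⟨hmul x y hx hy, ?_⟩
          have e1 : π s * π (x * y) * (π s)⁻¹ =
              (π s * π x * (π s)⁻¹) * (π s * π y * (π s)⁻¹) := by
            rw [map_mul]; group
          rw [e1, hx', hy', map_mul, mul_inv_rev]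
          exact ((hπ x y hx hy).inv_inv).eq
        inv_mem' := by
          rintro x ⟨hx, hx'⟩
          refine ⟨hinv x hx, ?_⟩
          have e1 : π s * π x⁻¹ * (π s)⁻¹ = (π s * π x * (π s)⁻¹)⁻¹ := by
            rw [map_inv]; group
          rw [e1, hx', map_inv] }
    -- commutators with `s`
    have hsb : ∀ b : H, Ext.Pres2 D E b → s * b * s⁻¹ * b⁻¹ ∈ L := by
      intro b hb
      refine ⟨hmul _ _ (hconj b hb) (hinv b hb), ?_⟩
      have c1 : π (s * s) * π b * (π (s * s))⁻¹ = π b := by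
        have := (hπ _ _ hss hb).eq
        rw [this, mul_inv_cancel_right]
      have e1 : π s * π (s * b * s⁻¹ * b⁻¹) * (π s)⁻¹ =
          (π (s * s) * π b * (π (s * s))⁻¹) * (π s * (π b)⁻¹ * (π s)⁻¹) := by
        simp only [map_mul, map_inv]; group
      rw [e1, c1]
      simp only [map_mul, map_inv]
      group
    have hN_L : ∀ x ∈ NH, x ∈ L := by
      rintro x hx
      have hx1 : π x = 1 := (QuotientGroup.eq_one_iff (N := NH) x).2 hx
      obtain ⟨f, _, rfl⟩ := hx
      refine ⟨hι f, ?_⟩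
      rw [hx1]
      simp
    -- `x ≡ y` modulo `NH` and `y ∈ L` imply `x ∈ L`
    have hcong : ∀ x y : H, Ext.Pres2 D E x → π x = π y → y ∈ L → x ∈ L := by
      rintro x y hx hxy ⟨_, hy⟩
      exact ⟨hx, by rw [hxy]; exact hy⟩
    have hprescomm : ∀ u v : H, Ext.Pres2 D E (u * v * u⁻¹ * v⁻¹) := by
      intro u v
      obtain ⟨f, hf⟩ := E.comm u v
      rw [← hf]
      exact hι f
    have hL : commutator H ≤ L := by
      rw [commutator_def, Subgroup.commutator_le]
      intro u _ v _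
      rw [commutatorElement_def]
      by_cases hu : Ext.Pres2 D E u
      · by_cases hv : Ext.Pres2 D E v
        · exact hN_L _ (hcomm u v hu hv)
        · -- `v = s y`
          set y := s⁻¹ * v with hy
          have hyP : Ext.Pres2 D E y := hswap _ _ hsinv hv
          have hv' : v = s * y := by rw [hy]; group
          refine hcong _ _ (hprescomm u v) ?_ (L.inv_mem (hsb u hu))
          have c1 : π y * (π u)⁻¹ * (π y)⁻¹ = (π u)⁻¹ := by
            have := (hπ y u hyP hu).inv_right.eq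
            rw [this, mul_inv_cancel_right]
          rw [hv']
          have e1 : π (u * (s * y) * u⁻¹ * (s * y)⁻¹) =
              π u * π s * (π y * (π u)⁻¹ * (π y)⁻¹) * (π s)⁻¹ := by
            simp only [map_mul, map_inv]; group
          rw [e1, c1]
          simp only [map_mul, map_inv]; group
      · set x := s⁻¹ * u with hx
        have hxP : Ext.Pres2 D E x := hswap _ _ hsinv hu
        have hu' : u = s * x := by rw [hx]; group
        by_cases hv : Ext.Pres2 D E v
        · refine hcong _ _ (hprescomm u v) ?_ (hsb v hv)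
          have c1 : π x * π v * (π x)⁻¹ = π v := by
            have := (hπ x v hxP hv).eq
            rw [this, mul_inv_cancel_right]
          rw [hu']
          have e1 : π (s * x * v * (s * x)⁻¹ * v⁻¹) =
              π s * (π x * π v * (π x)⁻¹) * (π s)⁻¹ * (π v)⁻¹ := by
            simp only [map_mul, map_inv]; group
          rw [e1, c1]
          simp only [map_mul, map_inv]
        · set y := s⁻¹ * v with hy
          have hyP : Ext.Pres2 D E y := hswap _ _ hsinv hv
          have hv' : v = s * y := by rw [hy]; group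
          refine hcong _ _ (hprescomm u v) ?_ (L.mul_mem (hsb x hxP) (L.inv_mem (hsb y hyP)))
          rw [hu', hv']
          -- all in the abelian group
          have hsx := hconj x hxP
          have hsy := hconj y hyP
          -- `[sx, sy] = (s x s⁻¹) (s s) (y x⁻¹) (s s)⁻¹ (s y s⁻¹)⁻¹`
          have e1 : π (s * x * (s * y) * (s * x)⁻¹ * (s * y)⁻¹) =
              π (s * x * s⁻¹) * (π (s * s) * (π y * (π x)⁻¹) * (π (s * s))⁻¹) *
                (π (s * y * s⁻¹))⁻¹ := by
            simp only [map_mul, map_inv]; group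
          have c1 : π (s * s) * (π y * (π x)⁻¹) * (π (s * s))⁻¹ = π y * (π x)⁻¹ := by
            have := ((hπ _ y hss hyP).mul_right (hπ _ x hss hxP).inv_right).eq
            rw [this, mul_inv_cancel_right]
          have e2 : π (s * x * s⁻¹ * x⁻¹ * (s * y * s⁻¹ * y⁻¹)⁻¹) =
              π (s * x * s⁻¹) * ((π x)⁻¹ * π y) * (π (s * y * s⁻¹))⁻¹ := by
            simp only [map_mul, map_inv]; group
          rw [e1, c1, e2, ((hπ y x hyP hxP).inv_right).eq]
    -- conclusion
    obtain ⟨g, hg0, hg1⟩ := Set.not_subset.1 D.not_le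
    have h1 := (hL (h g)).2
    have h2 : π (s * E.ι g * s⁻¹ * E.ι g) = 1 := by
      have : π (s * E.ι g * s⁻¹ * E.ι g) = π s * π (E.ι g) * (π s)⁻¹ * π (E.ι g) := by
        simp only [map_mul, map_inv]
      rw [this, h1, inv_mul_cancel]
    have h3 : s * E.ι g * s⁻¹ * E.ι g ∈ NH := (QuotientGroup.eq_one_iff (N := NH) _).1 h2
    rw [← E.conj, ← map_mul] at h3
    obtain ⟨n, hn, hn'⟩ := h3
    have h4 := E.inj hn'
    rw [h4] at hn
    have h5 : E.α s g ∈ D.K1 := (hs'.1 g).2 hg0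
    have h6 : g ∈ D.K1 := by
      have := D.K1.mul_mem (D.K1.inv_mem h5) hn.2
      rwa [inv_mul_cancel_left] at this
    exact hg1 h6

end Pool.Agent.X261.FI
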