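import Pool.Agent.X261.FI.Ext
import Pool.Agent.H583R3.ThF
import Pool.Agent.Y572.BH.TF3

/-!
# Thompson's group `F` on the line
-/

set_option autoImplicit false

namespace Pool.Agent.X261.FI

open Pool.Agent.H583R3 (F act x0 x1 X bf bg fRel_x)
open Y572.BH (W W_nil W_cons W_append W_single exists_frac extract)
open Y208.BH (TRel)

/-- the infinite generating set -/
def XX : ℕ → F
  | 0 => x0⁻¹
  | n + 1 => (X x0 x1 n)⁻¹

theorem conj_X (i n : ℕ) :
    (X x0 x1 i)⁻¹ * X x0 x1 (i + n + 1) * X x0 x1 i = X x0 x1 (i + n + 2) := by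
  have h1 := Pool.Agent.H583R3.conj_b1 fRel_x n
  have h2 : (x0 ^ i)⁻¹ * (x1⁻¹ * X x0 x1 (n + 1) * x1) * x0 ^ i =
      (x0 ^ i)⁻¹ * X x0 x1 (n + 2) * x0 ^ i := by rw [h1]
  rw [Pool.Agent.H583R3.X_add i (n + 2)] at h2
  have e1 : (x0 ^ i)⁻¹ * (x1⁻¹ * X x0 x1 (n + 1) * x1) * x0 ^ i =
      ((x0 ^ i)⁻¹ * X x0 x1 0 * x0 ^ i)⁻¹ * ((x0 ^ i)⁻¹ * X x0 x1 (n + 1) * x0 ^ i) *
        ((x0 ^ i)⁻¹ * X x0 x1 0 * x0 ^ i) := by
    rw [Pool.Agent.H583R3.X_zero]; group
  rw [e1, Pool.Agent.H583R3.X_add i 0, Pool.Agent.H583R3.X_add i (n + 1), Nat.zero_add] at h2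
  rw [show i + n + 1 = n + 1 + i by omega, show i + n + 2 = n + 2 + i by omega]
  exact h2

theorem trel : TRel XX := by
  intro j k hjk
  cases j with
  | zero =>
    obtain ⟨l, rfl⟩ : ∃ l, k = l + 1 := ⟨k - 1, by omega⟩
    show (X x0 x1 (l + 1))⁻¹ * x0⁻¹ = x0⁻¹ * (X x0 x1 l)⁻¹
    rw [← Pool.Agent.H583R3.X_conj (a := x0) (b := x1) l]
    group
  | succ i =>
    obtain ⟨n, rfl⟩ : ∃ n, k = i + n + 2 := ⟨k - i - 2, by omega⟩
    show (X x0 x1 (i + n + 2))⁻¹ * (X x0 x1 i)⁻¹ = (X x0 x1 i)⁻¹ * (X x0 x1 (i + n + 1))⁻¹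
    rw [← conj_X]
    group

theorem gen : Subgroup.closure (Set.range XX) = ⊤ := by
  rw [eq_top_iff, ← PresentedGroup.closure_range_of, Subgroup.closure_le]
  rintro _ ⟨i, rfl⟩
  fin_cases i
  · have : XX 0 ∈ Subgroup.closure (Set.range XX) := Subgroup.subset_closure ⟨0, rfl⟩
    have h := Subgroup.inv_mem _ this
    rw [show (XX 0)⁻¹ = x0 by simp [XX]] at h
    exact h
  · have : XX 1 ∈ Subgroup.closure (Set.range XX) := Subgroup.subset_closure ⟨1, rfl⟩
    have h := Subgroup.inv_mem _ this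
    rw [show (XX 1)⁻¹ = x1 by simp [XX, Pool.Agent.H583R3.X_zero]] at h
    exact h

theorem act_XX0 (t : ℝ) : act (XX 0) t = t + 1 := by
  show act x0⁻¹ t = _
  rw [map_inv, Pool.Agent.H583R3.act_x0, Pool.Agent.H583R3.A_inv_apply]

theorem act_XX (n : ℕ) (t : ℝ) : act (XX (n + 1)) t = bg (t - n) + n :=
  Pool.Agent.H583R3.actX_inv n t

/-- positive words with indices at least `m + 1` fix the points up to `m` -/
theorem fix_W (m : ℕ) (l : List ℕ) (hl : ∀ k ∈ l, m + 1 ≤ k) (t : ℝ) (ht : t ≤ m) :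
    act (W XX l) t = t := by
  induction l with
  | nil => rw [W_nil, map_one]; rfl
  | cons k l ih =>
    rw [W_cons, map_mul, mul_ap, ih (fun k hk => hl k (by simp [hk]))]
    obtain ⟨i, rfl⟩ : ∃ i, k = i + 1 := ⟨k - 1, by have := hl k (by simp); omega⟩
    rw [act_XX]
    have h1 : (m : ℝ) ≤ i := by
      have := hl (i + 1) (by simp)
      exact_mod_cast (by omega : m ≤ i)
    unfold bg
    rw [if_pos (by linarith)]
    ring

theorem act_pow0 (a : ℕ) (t : ℝ) : act (XX 0 ^ a) t = t + a := by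
  induction a generalizing t with
  | zero => simp
  | succ a ih =>
    rw [pow_succ, map_mul, mul_ap, act_XX0, ih]
    push_cast
    ring

theorem act_powS (n a c : ℕ) : act (XX (n + 1) ^ a) (n + 1 / 2 ^ (c + a)) = n + 1 / 2 ^ c := by
  induction a with
  | zero => simp
  | succ a ih =>
    rw [pow_succ, map_mul, mul_ap, act_XX]
    have h0 : (0 : ℝ) < 1 / 2 ^ (c + (a + 1)) := by positivity
    have h1 : (1 : ℝ) / 2 ^ (c + (a + 1)) ≤ 1 := by
      rw [div_le_one (by positivity)]
      exact one_le_pow₀ (by norm_num)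
    have h2 : bg (n + 1 / 2 ^ (c + (a + 1)) - n) + n = n + 1 / 2 ^ (c + a) := by
      unfold bg
      rw [if_neg (by linarith), if_pos (by linarith)]
      rw [← add_assoc, pow_succ]
      field_simp
      ring
    rw [h2, ih]

theorem words : ∀ (N : ℕ) (p q : List ℕ), p.length + q.length ≤ N →
    (∀ t : ℝ, act (W XX p) t = act (W XX q) t) → W XX p = W XX q := by
  intro N
  induction N with
  | zero =>
    intro p q h _
    have hp : p = [] := List.length_eq_zero_iff.1 (by omega)
    have hq : q = [] := List.length_eq_zero_iff.1 (by omega)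
    rw [hp, hq]
  | succ N ih =>
    intro p q h hpq
    by_cases hne : p ++ q = []
    · have := List.append_eq_nil_iff.1 hne
      rw [this.1, this.2]
    · obtain ⟨m, hm, hmin⟩ : ∃ m ∈ p ++ q, ∀ k ∈ p ++ q, m ≤ k := by
        obtain ⟨k0, hk0⟩ := List.exists_mem_of_ne_nil _ hne
        classical
        have hex : ∃ k, k ∈ p ++ q := ⟨k0, hk0⟩
        exact ⟨Nat.find hex, Nat.find_spec hex, fun k hk => Nat.find_min' hex hk⟩
      obtain ⟨p', a, hp1, hp2, hp3, hp4⟩ := extract XX trel m p
        (fun k hk => hmin k (List.mem_append_left _ hk))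
      obtain ⟨q', b, hq1, hq2, hq3, hq4⟩ := extract XX trel m q
        (fun k hk => hmin k (List.mem_append_right _ hk))
      have hab : a = b := by
        cases m with
        | zero =>
          have h1 : act (W XX p) (-(a + b : ℝ)) = -(b : ℝ) := by
            rw [hp2, map_mul, mul_ap, act_pow0]
            have : -(a + b : ℝ) + a = -b := by ring
            rw [this, fix_W 0 p' hp1]
            push_cast
            have : (0 : ℝ) ≤ b := Nat.cast_nonneg b
            linarith
          have h2 : act (W XX q) (-(a + b : ℝ)) = -(a : ℝ) := by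
            rw [hq2, map_mul, mul_ap, act_pow0]
            have : -(a + b : ℝ) + b = -a := by ring
            rw [this, fix_W 0 q' hq1]
            push_cast
            have : (0 : ℝ) ≤ a := Nat.cast_nonneg a
            linarith
          rw [hpq, h2] at h1
          have h3 : (a : ℝ) = b := by linarith
          exact_mod_cast h3
        | succ n =>
          have hle : ∀ c : ℕ, (n : ℝ) + 1 / 2 ^ c ≤ (n + 1 : ℕ) := by
            intro c
            have h1 : (1 : ℝ) / 2 ^ c ≤ 1 := by
              rw [div_le_one (by positivity)]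
              exact one_le_pow₀ (by norm_num)
            push_cast
            linarith
          have h1 : act (W XX p) (n + 1 / 2 ^ (b + a)) = n + 1 / 2 ^ b := by
            rw [hp2, map_mul, mul_ap, act_powS, fix_W (n + 1) p' hp1 _ (hle b)]
          have h2 : act (W XX q) (n + 1 / 2 ^ (a + b)) = n + 1 / 2 ^ a := by
            rw [hq2, map_mul, mul_ap, act_powS, fix_W (n + 1) q' hq1 _ (hle a)]
          rw [hpq, add_comm b a, h2] at h1
          have h3 : (1 : ℝ) / 2 ^ a = 1 / 2 ^ b := by linarith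
          have h4 : (2 : ℝ) ^ a = 2 ^ b := by
            have ha : (2 : ℝ) ^ a ≠ 0 := by positivity
            have hb : (2 : ℝ) ^ b ≠ 0 := by positivity
            field_simp at h3
            exact h3.symm
          exact pow_right_injective₀ (by norm_num) (by norm_num) h4
      subst hab
      have ha : 1 ≤ a := by
        rcases List.mem_append.1 hm with h | h
        · exact hp4 h
        · exact hq4 h
      have hpq' : ∀ t : ℝ, act (W XX p') t = act (W XX q') t := by
        intro t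
        have := hpq (act (XX m ^ a)⁻¹ t)
        rw [hp2, hq2, map_mul, map_mul, mul_ap, mul_ap, map_inv, ap_inv_self] at this
        exact this
      rw [hp2, hq2, ih p' q' (by omega) hpq']

theorem act_injective : Function.Injective act := by
  rw [injective_iff_map_eq_one]
  intro g hg
  obtain ⟨p, q, e⟩ := exists_frac XX trel gen g
  have hpq : ∀ t : ℝ, act (W XX p) t = act (W XX q) t := by
    intro t
    have h1 : act g t = t := by rw [hg]; rfl
    rw [e, map_mul, mul_ap, map_inv] at h1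
    conv_lhs => rw [← h1]
    exact ap_inv_self _ _
  rw [e, words _ p q le_rfl hpq, inv_mul_cancel]

/-- integral translations near `-∞` -/
def Tl : Subgroup (ℝ ≃o ℝ) where
  carrier := {g | ∃ m : ℤ, ∃ R : ℝ, ∀ t ≤ R, g t = t + m}
  one_mem' := ⟨0, 0, fun t _ => by simp⟩
  mul_mem' := by
    rintro g h ⟨m, R, hg⟩ ⟨n, S, hh⟩
    refine ⟨n + m, min S (R - n), fun t ht => ?_⟩
    have h1 : t ≤ S := ht.trans (min_le_left _ _)
    have h2 : t ≤ R - n := ht.trans (min_le_right _ _)
    rw [mul_ap, hh t h1, hg (t + n) (by linarith)]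
    push_cast
    ring
  inv_mem' := by
    rintro g ⟨m, R, hg⟩
    refine ⟨-m, R + m, fun t ht => ?_⟩
    have h1 : g (t - m) = t := by
      rw [hg (t - m) (by linarith)]; ring
    conv_lhs => rw [← h1]
    rw [inv_ap_self]
    push_cast
    ring

/-- integral translations near `+∞` -/
def Tr : Subgroup (ℝ ≃o ℝ) where
  carrier := {g | ∃ m : ℤ, ∃ R : ℝ, ∀ t, R ≤ t → g t = t + m}
  one_mem' := ⟨0, 0, fun t _ => by simp⟩
  mul_mem' := by
    rintro g h ⟨m, R, hg⟩ ⟨n, S, hh⟩
    refine ⟨n + m, max S (R - n), fun t ht => ?_⟩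
    have h1 : S ≤ t := (le_max_left _ _).trans ht
    have h2 : R - n ≤ t := (le_max_right _ _).trans ht
    rw [mul_ap, hh t h1, hg (t + n) (by linarith)]
    push_cast
    ring
  inv_mem' := by
    rintro g ⟨m, R, hg⟩
    refine ⟨-m, R + m, fun t ht => ?_⟩
    have h1 : g (t - m) = t := by
      rw [hg (t - m) (by linarith)]; ring
    conv_lhs => rw [← h1]
    rw [inv_ap_self]
    push_cast
    ring

theorem act_mem_of (T : Subgroup (ℝ ≃o ℝ)) (hA : Pool.Agent.H583R3.A ∈ T)
    (hB : Pool.Agent.H583R3.B ∈ T) (g : F) : act g ∈ T := by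
  have h : (⊤ : Subgroup F) ≤ T.comap act := by
    rw [← PresentedGroup.closure_range_of, Subgroup.closure_le]
    rintro _ ⟨i, rfl⟩
    fin_cases i
    · show act x0 ∈ T
      rw [Pool.Agent.H583R3.act_x0]; exact hA
    · show act x1 ∈ T
      rw [Pool.Agent.H583R3.act_x1]; exact hB
  exact h (Subgroup.mem_top g)

theorem act_x0_zpow (n : ℤ) (t : ℝ) : act (x0 ^ n) t = t - n := by
  have h1 : ∀ (n : ℕ) (t : ℝ), act (x0 ^ n) t = t - n := by
    intro n
    induction n with
    | zero => intro t; simp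
    | succ n ih =>
      intro t
      rw [pow_succ, map_mul, mul_ap, Pool.Agent.H583R3.act_x0, Pool.Agent.H583R3.A_apply, ih]
      push_cast
      ring
  rcases Int.eq_nat_or_neg n with ⟨m, rfl | rfl⟩
  · rw [zpow_natCast, h1]
    simp
  · rw [zpow_neg, zpow_natCast, map_inv]
    have h2 : act (x0 ^ m) (t + m) = t := by rw [h1]; ring
    conv_lhs => rw [← h2]
    rw [inv_ap_self]
    push_cast
    ring

/-- the datum of Thompson's group `F` -/
noncomputable def datF : Dat F where
  a := act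
  inj := act_injective
  left g := act_mem_of Tl ⟨-1, 0, fun t _ => by rw [Pool.Agent.H583R3.A_apply]; push_cast; ring⟩
    ⟨0, 0, fun t ht => by rw [Pool.Agent.H583R3.B_apply]; unfold bf; simp [ht]⟩ g
  right g := act_mem_of Tr ⟨-1, 0, fun t _ => by rw [Pool.Agent.H583R3.A_apply]; push_cast; ring⟩
    ⟨-1, 3, fun t ht => by
      rw [Pool.Agent.H583R3.B_apply]; unfold bf
      rw [if_neg (by linarith), if_neg (by linarith)]; push_cast; ring⟩ g
  tr := x0⁻¹
  tr_apply t := by
    rw [map_inv, Pool.Agent.H583R3.act_x0, Pool.Agent.H583R3.A_inv_apply]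
  el R := by
    refine ⟨x0 ^ (1 - R) * (x0 * x1⁻¹) * x0 ^ (R - 1), fun t ht => ?_, fun t ht => ?_⟩
    · rw [map_mul, map_mul, mul_ap, mul_ap, act_x0_zpow, act_x0_zpow, map_mul, mul_ap, map_inv,
        Pool.Agent.H583R3.act_x0, Pool.Agent.H583R3.act_x1, Pool.Agent.H583R3.A_apply,
        Pool.Agent.H583R3.B_inv_apply]
      unfold bg
      push_cast
      split_ifs <;> linarith
    · rw [map_mul, map_mul, mul_ap, mul_ap, act_x0_zpow, act_x0_zpow, map_mul, mul_ap, map_inv,
        Pool.Agent.H583R3.act_x0, Pool.Agent.H583R3.act_x1, Pool.Agent.H583R3.A_apply,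
        Pool.Agent.H583R3.B_inv_apply]
      unfold bg
      push_cast
      split_ifs <;> linarith
  er R := by
    refine ⟨x0 ^ (-R) * x1⁻¹ * x0 ^ R, fun t ht => ?_, fun t ht => ?_⟩
    · rw [map_mul, map_mul, mul_ap, mul_ap, act_x0_zpow, act_x0_zpow, map_inv,
        Pool.Agent.H583R3.act_x1, Pool.Agent.H583R3.B_inv_apply]
      unfold bg
      push_cast
      split_ifs <;> linarith
    · rw [map_mul, map_mul, mul_ap, mul_ap, act_x0_zpow, act_x0_zpow, map_inv,
        Pool.Agent.H583R3.act_x1, Pool.Agent.H583R3.B_inv_apply]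
      unfold bg
      push_cast
      split_ifs <;> linarith

end Pool.Agent.X261.FI
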